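import Mathlib

/-!
# Attaching a pendant vertex at an extremum of the Fiedler vector

The graph `G0` has the `8` vertices `0, ..., 7` and the edges `03, 34, 35, 14, 16, 46, 25, 27, 57, 67`.
Its Fiedler vector has its maximum at `1, 2, 6, 7`. If a new vertex is attached to the vertex `6` by an
edge of weight `X` (about `409`), then the new vertex is not an extremum of the Fiedler vector.
-/

namespace Pool.Agent.Results.MP_a456c8_co.PendantNotExtremal

open Matrix

/-- The Laplacian of a weighted graph. -/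
def lap {V : Type*} [Fintype V] [DecidableEq V] (W : V → V → ℝ) : Matrix V V ℝ :=
  Matrix.diagonal (fun i => ∑ j, W i j) - Matrix.of W

open scoped Classical in
/-- The weights of an unweighted graph. -/
noncomputable def weights {V : Type*} (G : SimpleGraph V) (i j : V) : ℝ :=
  if G.Adj i j then 1 else 0

open scoped Classical in
/-- The weights of the graph obtained from `G` by adding a new vertex `none` and an edge of weight
`x` between `none` and `v`. -/
noncomputable def attach {V : Type*} (G : SimpleGraph V) (v : V) (x : ℝ) :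
    Option V → Option V → ℝ
  | some i, some j => weights G i j
  | some i, none => if i = v then x else 0
  | none, some j => if j = v then x else 0
  | none, none => 0

/-- `L` is the Laplacian of a connected graph whose second smallest eigenvalue is simple, and `Φ` is
a Fiedler vector: a unit eigenvector for that eigenvalue. In detail: the kernel of `L` consists of
the constant vectors (so that the smallest eigenvalue `0` is simple), and `Φ` is a unit eigenvector
for the smallest nonzero eigenvalue `μ`, the eigenspace of which is spanned by `Φ`. -/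
structure IsFiedlerVector {V : Type*} [Fintype V] (L : Matrix V V ℝ) (Φ : V → ℝ) : Prop where
  unit : ∑ i, Φ i ^ 2 = 1
  kernel : ∀ y : V → ℝ, L *ᵥ y = 0 → ∃ c : ℝ, y = fun _ => c
  second : ∃ μ : ℝ, 0 < μ ∧ L *ᵥ Φ = μ • Φ ∧
    (∀ (ν : ℝ) (y : V → ℝ), y ≠ 0 → L *ᵥ y = ν • y → ν = 0 ∨ μ ≤ ν) ∧
    ∀ y : V → ℝ, L *ᵥ y = μ • y → ∃ c : ℝ, y = c • Φ

/-- The vertex `u` is an extremum of the vector `Φ`. -/
def IsExtremum {V : Type*} (Φ : V → ℝ) (u : V) : Prop :=
  (∀ i, Φ i ≤ Φ u) ∨ ∀ i, Φ u ≤ Φ i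

theorem lap_mulVec {V : Type*} [Fintype V] [DecidableEq V] (W : V → V → ℝ) (y : V → ℝ) (i : V) :
    (lap W *ᵥ y) i = ∑ j, W i j * (y i - y j) := by
  rw [lap, sub_mulVec, Pi.sub_apply, mulVec_diagonal, Finset.sum_mul]
  rw [mulVec, dotProduct, ← Finset.sum_sub_distrib]
  refine Finset.sum_congr rfl fun j _ => ?_
  rw [Matrix.of_apply]
  ring

/-- Normalisation of an eigenvector. -/
theorem normalise {V : Type*} [Fintype V] {L : Matrix V V ℝ} {Φ : V → ℝ} (h0 : Φ ≠ 0)
    (kernel : ∀ y : V → ℝ, L *ᵥ y = 0 → ∃ c : ℝ, y = fun _ => c) {μ : ℝ} (hμ : 0 < μ)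
    (heig : L *ᵥ Φ = μ • Φ)
    (hsec : ∀ (ν : ℝ) (y : V → ℝ), y ≠ 0 → L *ᵥ y = ν • y → ν = 0 ∨ μ ≤ ν)
    (hsimple : ∀ y : V → ℝ, L *ᵥ y = μ • y → ∃ c : ℝ, y = c • Φ) :
    ∃ c : ℝ, 0 < c ∧ IsFiedlerVector L (c • Φ) := by
  have hS : 0 < ∑ i, Φ i ^ 2 := by
    obtain ⟨a, ha⟩ := Function.ne_iff.1 h0
    exact Finset.sum_pos' (fun _ _ => sq_nonneg _) ⟨a, Finset.mem_univ _, by
      have : Φ a ≠ 0 := ha
      positivity⟩
  have hc : 0 < (√(∑ i, Φ i ^ 2))⁻¹ := by positivity
  refine ⟨(√(∑ i, Φ i ^ 2))⁻¹, hc, ?_, kernel, μ, hμ, ?_, hsec, ?_⟩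
  · simp only [Pi.smul_apply, smul_eq_mul, mul_pow, ← Finset.mul_sum, inv_pow,
      Real.sq_sqrt hS.le]
    exact inv_mul_cancel₀ hS.ne'
  · rw [mulVec_smul, heig, smul_comm]
  · intro y hy
    obtain ⟨c, hc'⟩ := hsimple y hy
    refine ⟨c * √(∑ i, Φ i ^ 2), ?_⟩
    rw [hc', smul_smul, mul_assoc, mul_inv_cancel₀ (by positivity), mul_one]

/-- The graph of the example. -/
def G0 : SimpleGraph (Fin 8) := SimpleGraph.fromRel fun i j =>
  (i, j) ∈ [((0 : Fin 8), (3 : Fin 8)), (1, 4), (1, 6), (2, 5), (2, 7), (3, 4), (3, 5), (4, 6),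
    (5, 7), (6, 7)]

instance : DecidableRel G0.Adj := by
  unfold G0
  infer_instance

theorem weights_eq (i j : Fin 8) : weights G0 i j = if G0.Adj i j then (1 : ℝ) else 0 := by
  unfold weights
  congr

/-- The rows of the Laplacian of `G0`. -/
theorem rows (y : Fin 8 → ℝ) :
    (lap (weights G0) *ᵥ y) 0 = y 0 - y 3 ∧
    (lap (weights G0) *ᵥ y) 1 = 2 * y 1 - y 4 - y 6 ∧
    (lap (weights G0) *ᵥ y) 2 = 2 * y 2 - y 5 - y 7 ∧
    (lap (weights G0) *ᵥ y) 3 = 3 * y 3 - y 0 - y 4 - y 5 ∧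
    (lap (weights G0) *ᵥ y) 4 = 3 * y 4 - y 1 - y 3 - y 6 ∧
    (lap (weights G0) *ᵥ y) 5 = 3 * y 5 - y 2 - y 3 - y 7 ∧
    (lap (weights G0) *ᵥ y) 6 = 3 * y 6 - y 1 - y 4 - y 7 ∧
    (lap (weights G0) *ᵥ y) 7 = 3 * y 7 - y 2 - y 5 - y 6 := by
  simp only [lap_mulVec, weights_eq, Fin.sum_univ_eight]
  refine ⟨?_, ?_, ?_, ?_, ?_, ?_, ?_, ?_⟩ <;> simp [G0] <;> ring

theorem G0_connected : G0.Connected := by
  have h03 : G0.Adj 0 3 := by decide
  have h34 : G0.Adj 3 4 := by decide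
  have h35 : G0.Adj 3 5 := by decide
  have h41 : G0.Adj 4 1 := by decide
  have h46 : G0.Adj 4 6 := by decide
  have h52 : G0.Adj 5 2 := by decide
  have h57 : G0.Adj 5 7 := by decide
  have r3 : G0.Reachable 0 3 := h03.reachable
  have r4 := r3.trans h34.reachable
  have r5 := r3.trans h35.reachable
  have r : ∀ i : Fin 8, G0.Reachable 0 i := by
    intro i
    fin_cases i
    · exact SimpleGraph.Reachable.refl _
    · exact r4.trans h41.reachable
    · exact r5.trans h52.reachable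
    · exact r3
    · exact r4
    · exact r5
    · exact r4.trans h46.reachable
    · exact r5.trans h57.reachable
  exact { preconnected := fun i j => (r i).symm.trans (r j), nonempty := ⟨0⟩ }

/-- The cubic whose smallest root is the second smallest eigenvalue. -/
theorem exists_root : ∃ l : ℝ, 65 / 100 ≤ l ∧ l ≤ 66 / 100 ∧ l ^ 3 - 8 * l ^ 2 + 17 * l - 8 = 0 := by
  have hc : ContinuousOn (fun l : ℝ => l ^ 3 - 8 * l ^ 2 + 17 * l - 8) (Set.Icc (65 / 100) (66 / 100)) := by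
    fun_prop
  obtain ⟨l, hl, he⟩ := intermediate_value_Icc (by norm_num) hc
    (show (0 : ℝ) ∈ Set.Icc _ _ by constructor <;> norm_num)
  exact ⟨l, hl.1, hl.2, he⟩

/-- Eigenvectors of the Laplacian of `G0` for small eigenvalues. -/
theorem small {ν a0 a1 a2 a3 a4 a5 a6 a7 : ℝ} (hν : ν ≤ 66 / 100)
    (e0 : a0 - a3 = ν * a0) (e1 : 2 * a1 - a4 - a6 = ν * a1) (e2 : 2 * a2 - a5 - a7 = ν * a2)
    (e3 : 3 * a3 - a0 - a4 - a5 = ν * a3) (e4 : 3 * a4 - a1 - a3 - a6 = ν * a4)
    (e5 : 3 * a5 - a2 - a3 - a7 = ν * a5) (e6 : 3 * a6 - a1 - a4 - a7 = ν * a6)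
    (e7 : 3 * a7 - a2 - a5 - a6 = ν * a7) :
    a1 = a6 ∧ a2 = a6 ∧ a7 = a6 ∧ a4 = (1 - ν) * a6 ∧ a5 = (1 - ν) * a6 ∧
      a3 = (1 - 4 * ν + ν ^ 2) * a6 ∧ a0 = (1 - 11 * ν + 7 * ν ^ 2 - ν ^ 3) * a6 ∧
      ν * (ν ^ 3 - 8 * ν ^ 2 + 17 * ν - 8) * a6 = 0 := by
  have hD : 0 < -ν ^ 3 + 9 * ν ^ 2 - 23 * ν + 13 := by
    nlinarith [sq_nonneg ν, sq_nonneg (ν - 1), mul_nonneg (sub_nonneg.2 hν) (sq_nonneg (ν - 3))]
  have p : a4 - a5 = 0 := by
    have : (-ν ^ 3 + 9 * ν ^ 2 - 23 * ν + 13) * (a4 - a5) = 0 := by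
      linear_combination ((2 - ν) * (4 - ν) - 1) * (e4 - e5) + (5 - ν) * (e1 - e2) +
        (3 - ν) * (e6 - e7)
    exact (mul_eq_zero.1 this).resolve_left hD.ne'
  have q : a1 - a2 = 0 := by
    have : (-ν ^ 3 + 9 * ν ^ 2 - 23 * ν + 13) * (a1 - a2) = 0 := by
      linear_combination (5 - ν) * (e4 - e5) + ((3 - ν) * (4 - ν) - 1) * (e1 - e2) +
        (4 - ν) * (e6 - e7)
    exact (mul_eq_zero.1 this).resolve_left hD.ne'
  have r : a6 - a7 = 0 := by
    have : (-ν ^ 3 + 9 * ν ^ 2 - 23 * ν + 13) * (a6 - a7) = 0 := by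
      linear_combination (3 - ν) * (e4 - e5) + (4 - ν) * (e1 - e2) +
        ((3 - ν) * (2 - ν) - 1) * (e6 - e7)
    exact (mul_eq_zero.1 this).resolve_left hD.ne'
  have h5 : a5 = a4 := by linarith
  have h2 : a2 = a1 := by linarith
  have h7 : a7 = a6 := by linarith
  subst h5 h2 h7
  have h1 : a2 = a7 := by
    have : (3 - ν) * (a2 - a7) = 0 := by linear_combination e1 - e6
    have := (mul_eq_zero.1 this).resolve_left (by linarith)
    linarith
  subst h1
  have h4 : a5 = (1 - ν) * a2 := by linear_combination -e1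
  have h3 : a3 = (1 - 4 * ν + ν ^ 2) * a2 := by
    linear_combination -e4 + (3 - ν) * h4
  have h0 : a0 = (1 - 11 * ν + 7 * ν ^ 2 - ν ^ 3) * a2 := by
    linear_combination -e3 + (3 - ν) * h3 - 2 * h4
  refine ⟨rfl, rfl, rfl, h4, h4, h3, h0, ?_⟩
  linear_combination e0 - (1 - ν) * h0 + h3

theorem G0_fiedler : ∃ Φ : Fin 8 → ℝ, IsFiedlerVector (lap (weights G0)) Φ ∧ ∀ i, Φ i ≤ Φ 6 := by
  obtain ⟨l, hl1, hl2, hl⟩ := exists_root
  let F : Fin 8 → ℝ := ![-7 + 6 * l - l ^ 2, 1, 1, 1 - 4 * l + l ^ 2, 1 - l, 1 - l, 1, 1]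
  have hF6 : F 6 = 1 := rfl
  have hrow : ∀ (ν : ℝ) (y : Fin 8 → ℝ), lap (weights G0) *ᵥ y = ν • y → ν ≤ 66 / 100 →
      y 1 = y 6 ∧ y 2 = y 6 ∧ y 7 = y 6 ∧ y 4 = (1 - ν) * y 6 ∧ y 5 = (1 - ν) * y 6 ∧
      y 3 = (1 - 4 * ν + ν ^ 2) * y 6 ∧ y 0 = (1 - 11 * ν + 7 * ν ^ 2 - ν ^ 3) * y 6 ∧
      ν * (ν ^ 3 - 8 * ν ^ 2 + 17 * ν - 8) * y 6 = 0 := by
    intro ν y hy hν
    obtain ⟨r0, r1, r2, r3, r4, r5, r6, r7⟩ := rows y
    simp only [hy, Pi.smul_apply, smul_eq_mul] at r0 r1 r2 r3 r4 r5 r6 r7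
    exact small hν r0.symm r1.symm r2.symm r3.symm r4.symm r5.symm r6.symm r7.symm
  have hker : ∀ y : Fin 8 → ℝ, lap (weights G0) *ᵥ y = 0 → ∃ c : ℝ, y = fun _ => c := by
    intro y hy
    have hy' : lap (weights G0) *ᵥ y = (0 : ℝ) • y := by rw [hy, zero_smul]
    obtain ⟨h1, h2, h7, h4, h5, h3, h0, -⟩ := hrow 0 y hy' (by norm_num)
    refine ⟨y 6, funext fun i => ?_⟩
    fin_cases i
    · exact h0.trans (by ring)
    · exact h1
    · exact h2
    · exact h3.trans (by ring)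
    · exact h4.trans (by ring)
    · exact h5.trans (by ring)
    · rfl
    · exact h7
  have heig : lap (weights G0) *ᵥ F = l • F := by
    obtain ⟨r0, r1, r2, r3, r4, r5, r6, r7⟩ := rows F
    funext i
    rw [Pi.smul_apply, smul_eq_mul]
    fin_cases i
    · refine r0.trans ?_
      show (-7 + 6 * l - l ^ 2) - (1 - 4 * l + l ^ 2) = l * (-7 + 6 * l - l ^ 2)
      linear_combination hl
    · refine r1.trans ?_
      show 2 * 1 - (1 - l) - 1 = l * 1
      ring
    · refine r2.trans ?_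
      show 2 * 1 - (1 - l) - 1 = l * 1
      ring
    · refine r3.trans ?_
      show 3 * (1 - 4 * l + l ^ 2) - (-7 + 6 * l - l ^ 2) - (1 - l) - (1 - l) =
        l * (1 - 4 * l + l ^ 2)
      linear_combination -hl
    · refine r4.trans ?_
      show 3 * (1 - l) - 1 - (1 - 4 * l + l ^ 2) - 1 = l * (1 - l)
      ring
    · refine r5.trans ?_
      show 3 * (1 - l) - 1 - (1 - 4 * l + l ^ 2) - 1 = l * (1 - l)
      ring
    · refine r6.trans ?_
      show 3 * 1 - 1 - (1 - l) - 1 = l * 1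
      ring
    · refine r7.trans ?_
      show 3 * 1 - 1 - (1 - l) - 1 = l * 1
      ring
  have hcol : ∀ (ν : ℝ) (y : Fin 8 → ℝ), lap (weights G0) *ᵥ y = ν • y → ν ≤ 66 / 100 →
      y 6 = 0 → y = 0 := by
    intro ν y hy hν h6
    obtain ⟨h1, h2, h7, h4, h5, h3, h0, -⟩ := hrow ν y hy hν
    rw [h6] at h0 h1 h2 h3 h4 h5 h7
    rw [mul_zero] at h0 h3 h4 h5
    funext i
    fin_cases i
    · exact h0
    · exact h1
    · exact h2
    · exact h3
    · exact h4
    · exact h5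
    · exact h6
    · exact h7
  have hsec : ∀ (ν : ℝ) (y : Fin 8 → ℝ), y ≠ 0 → lap (weights G0) *ᵥ y = ν • y →
      ν = 0 ∨ l ≤ ν := by
    intro ν y hy0 hy
    by_contra hcon
    push Not at hcon
    obtain ⟨hν0, hνl⟩ := hcon
    have hν : ν ≤ 66 / 100 := by linarith
    obtain ⟨-, -, -, -, -, -, -, h⟩ := hrow ν y hy hν
    have h6 : y 6 ≠ 0 := fun h6 => hy0 (hcol ν y hy hν h6)
    have hcub : ν ^ 3 - 8 * ν ^ 2 + 17 * ν - 8 = 0 :=
      (mul_eq_zero.1 ((mul_eq_zero.1 h).resolve_right h6)).resolve_left hν0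
    have h2 : (l - ν) * (l ^ 2 + l * ν + ν ^ 2 - 8 * (l + ν) + 17) = 0 := by
      linear_combination hl - hcub
    have h3 : 0 < l ^ 2 + l * ν + ν ^ 2 - 8 * (l + ν) + 17 := by
      nlinarith [sq_nonneg (l + ν), sq_nonneg (l - ν), sq_nonneg l, sq_nonneg ν]
    rcases mul_eq_zero.1 h2 with h4 | h4 <;> linarith
  have hsimple : ∀ y : Fin 8 → ℝ, lap (weights G0) *ᵥ y = l • y → ∃ c : ℝ, y = c • F := by
    intro y hy
    refine ⟨y 6, ?_⟩
    have h1 : lap (weights G0) *ᵥ (y - y 6 • F) = l • (y - y 6 • F) := by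
      rw [mulVec_sub, mulVec_smul, hy, heig, smul_sub, smul_comm]
    have h2 := hcol l _ h1 hl2 (by simp [hF6])
    exact sub_eq_zero.1 h2
  obtain ⟨c, hc, hΦ⟩ := normalise (Φ := F) (fun h => by simpa [hF6] using congrFun h 6) hker
    (by linarith : 0 < l) heig hsec hsimple
  refine ⟨c • F, hΦ, fun i => ?_⟩
  rw [Pi.smul_apply, Pi.smul_apply, smul_eq_mul, smul_eq_mul]
  refine mul_le_mul_of_nonneg_left ?_ hc.le
  rw [hF6]
  fin_cases i
  · show -7 + 6 * l - l ^ 2 ≤ 1
    nlinarith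
  · exact le_rfl
  · exact le_rfl
  · show 1 - 4 * l + l ^ 2 ≤ 1
    nlinarith
  · show 1 - l ≤ 1
    linarith
  · show 1 - l ≤ 1
    linarith
  · exact le_rfl
  · exact le_rfl

/-- A certificate of positive definiteness. -/
theorem certificate (w0 w1 w2 w3 w4 w5 w6 w7 w8 : ℝ) (h1 : w0 + w1 + w2 + w3 + w4 + w5 + w6 + w7 + w8 = 0)
    (h2 : -17171956285 * w0 + 6876105921 * w1 + 309025401 * w2 - 6719461155 * w3 + 2867156655 * w4 - 1763477045 * w5 + 6699599409 * w6 + 2193425429 * w7 + 6709581670 * w8 = 0) :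
    62 / 100 * (w0 ^ 2 + w1 ^ 2 + w2 ^ 2 + w3 ^ 2 + w4 ^ 2 + w5 ^ 2 + w6 ^ 2 + w7 ^ 2 + w8 ^ 2) ≤
      (w0 - w3) ^ 2 + (w1 - w4) ^ 2 + (w1 - w6) ^ 2 + (w2 - w5) ^ 2 + (w2 - w7) ^ 2 + (w3 - w4) ^ 2 + (w3 - w5) ^ 2 + (w4 - w6) ^ 2 + (w5 - w7) ^ 2 + (w6 - w7) ^ 2 +
        20 * (w6 - w8) ^ 2 := by
  have key : (w0 - w3) ^ 2 + (w1 - w4) ^ 2 + (w1 - w6) ^ 2 + (w2 - w5) ^ 2 + (w2 - w7) ^ 2 + (w3 - w4) ^ 2 + (w3 - w5) ^ 2 + (w4 - w6) ^ 2 + (w5 - w7) ^ 2 + (w6 - w7) ^ 2 +
      20 * (w6 - w8) ^ 2 - 62 / 100 * (w0 ^ 2 + w1 ^ 2 + w2 ^ 2 + w3 ^ 2 + w4 ^ 2 + w5 ^ 2 + w6 ^ 2 + w7 ^ 2 + w8 ^ 2) +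
      (w0 + w1 + w2 + w3 + w4 + w5 + w6 + w7 + w8) ^ 2 +
      ((-17171956285 * w0 + 6876105921 * w1 + 309025401 * w2 - 6719461155 * w3 + 2867156655 * w4 - 1763477045 * w5 + 6699599409 * w6 + 2193425429 * w7 + 6709581670 * w8) / 10 ^ 10) ^ 2 =
      10747/2500 * (1 * w0 - 21/500 * w1 + 2203/10000 * w2 + 671/2500 * w3 + 1181/10000 * w4 + 3031/10000 * w5 - 7/200 * w6 + 29/200 * w7 - 177/5000 * w8) ^ 2 +
      3519/1250 * (1 * w1 + 3769/10000 * w2 + 2083/10000 * w3 + 97/1250 * w4 + 829/2500 * w5 + 807/5000 * w6 + 4181/10000 * w7 + 323/625 * w8) ^ 2 +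
      1089/625 * (1 * w2 + 2893/10000 * w3 + 1169/2500 * w4 - 1849/5000 * w5 + 1013/2000 * w6 - 659/2000 * w7 + 2903/10000 * w8) ^ 2 +
      16119/5000 * (1 * w3 - 473/2500 * w4 - 371/5000 * w5 + 149/2000 * w6 + 47/250 * w7 + 109/2500 * w8) ^ 2 +
      28589/10000 * (1 * w4 + 137/400 * w5 - 337/5000 * w6 + 4481/10000 * w7 + 194/625 * w8) ^ 2 +
      10427/5000 * (1 * w5 + 1423/2500 * w6 - 5869/10000 * w7 + 13/80 * w8) ^ 2 +
      225667/10000 * (1 * w6 + 223/5000 * w7 - 1063/1250 * w8) ^ 2 +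
      11751/10000 * (1 * w7 + 5783/5000 * w8) ^ 2 +
      8341/5000 * (1 * w8) ^ 2 +
      4246057288332697/20000000000000000000 * (1 * w0 - 1 * w1) ^ 2 +
      1826935385319057/20000000000000000000 * (1 * w0 - 1 * w2) ^ 2 +
      260048496624367/4000000000000000000 * (1 * w0 + 1 * w3) ^ 2 +
      140669676273067/4000000000000000000 * (1 * w0 - 1 * w4) ^ 2 +
      571090946360887/4000000000000000000 * (1 * w0 - 1 * w5) ^ 2 +
      114364328032887/20000000000000000000 * (1 * w0 + 1 * w6) ^ 2 +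
      398883760925747/20000000000000000000 * (1 * w0 + 1 * w7) ^ 2 +
      22177442454081/2000000000000000000 * (1 * w0 + 1 * w8) ^ 2 +
      2488922444500679/100000000000000000000 * (1 * w1 - 1 * w2) ^ 2 +
      321726035000249/20000000000000000000 * (1 * w1 + 1 * w3) ^ 2 +
      242325576010851/20000000000000000000 * (1 * w1 + 1 * w4) ^ 2 +
      1085714934416689/20000000000000000000 * (1 * w1 - 1 * w5) ^ 2 +
      2096435446999311/100000000000000000000 * (1 * w1 - 1 * w6) ^ 2 +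
      3317220381134891/100000000000000000000 * (1 * w1 - 1 * w7) ^ 2 +
      711266452006807/10000000000000000000 * (1 * w1 + 1 * w8) ^ 2 +
      786505185559631/20000000000000000000 * (1 * w2 - 1 * w3) ^ 2 +
      1342376431761269/20000000000000000000 * (1 * w2 - 1 * w4) ^ 2 +
      52957962915991/20000000000000000000 * (1 * w2 + 1 * w5) ^ 2 +
      7047210705588009/100000000000000000000 * (1 * w2 + 1 * w6) ^ 2 +
      4421280039677971/100000000000000000000 * (1 * w2 - 1 * w7) ^ 2 +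
      902381331399967/10000000000000000000 * (1 * w2 + 1 * w8) ^ 2 +
      757029142889461/4000000000000000000 * (1 * w3 - 1 * w4) ^ 2 +
      235576223532521/4000000000000000000 * (1 * w3 - 1 * w5) ^ 2 +
      1444741352708521/20000000000000000000 * (1 * w3 + 1 * w6) ^ 2 +
      3105277569057901/20000000000000000000 * (1 * w3 + 1 * w7) ^ 2 +
      101946410699423/2000000000000000000 * (1 * w3 + 1 * w8) ^ 2 +
      84008140459379/4000000000000000000 * (1 * w4 - 1 * w5) ^ 2 +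
      1187470909683379/20000000000000000000 * (1 * w4 + 1 * w6) ^ 2 +
      174203839284001/20000000000000000000 * (1 * w4 - 1 * w7) ^ 2 +
      233244268130277/2000000000000000000 * (1 * w4 + 1 * w8) ^ 2 +
      936991653413281/20000000000000000000 * (1 * w5 - 1 * w6) ^ 2 +
      2018700332155461/20000000000000000000 * (1 * w5 - 1 * w7) ^ 2 +
      56076164044697/2000000000000000000 * (1 * w5 + 1 * w8) ^ 2 +
      95878856813971461/100000000000000000000 * (1 * w6 + 1 * w7) ^ 2 +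
      3435803096923303/10000000000000000000 * (1 * w6 + 1 * w8) ^ 2 +
      7862701446971357/10000000000000000000 * (1 * w7 - 1 * w8) ^ 2 +
      293774735003378721/10000000000000000000 * (1 * w0) ^ 2 +
      147901497742487643/5000000000000000000 * (1 * w1) ^ 2 +
      739641115182916183/25000000000000000000 * (1 * w2) ^ 2 +
      18379680453319829/625000000000000000 * (1 * w3) ^ 2 +
      295095106553003/10000000000000000 * (1 * w4) ^ 2 +
      293659952956637039/10000000000000000000 * (1 * w5) ^ 2 +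
      284411424971816713/10000000000000000000 * (1 * w6) ^ 2 +
      1401569678336110299/50000000000000000000 * (1 * w7) ^ 2 +
      139882042833027533/5000000000000000000 * (1 * w8) ^ 2 := by
    ring
  have hpos : 0 ≤ 10747/2500 * (1 * w0 - 21/500 * w1 + 2203/10000 * w2 + 671/2500 * w3 + 1181/10000 * w4 + 3031/10000 * w5 - 7/200 * w6 + 29/200 * w7 - 177/5000 * w8) ^ 2 +
      3519/1250 * (1 * w1 + 3769/10000 * w2 + 2083/10000 * w3 + 97/1250 * w4 + 829/2500 * w5 + 807/5000 * w6 + 4181/10000 * w7 + 323/625 * w8) ^ 2 +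
      1089/625 * (1 * w2 + 2893/10000 * w3 + 1169/2500 * w4 - 1849/5000 * w5 + 1013/2000 * w6 - 659/2000 * w7 + 2903/10000 * w8) ^ 2 +
      16119/5000 * (1 * w3 - 473/2500 * w4 - 371/5000 * w5 + 149/2000 * w6 + 47/250 * w7 + 109/2500 * w8) ^ 2 +
      28589/10000 * (1 * w4 + 137/400 * w5 - 337/5000 * w6 + 4481/10000 * w7 + 194/625 * w8) ^ 2 +
      10427/5000 * (1 * w5 + 1423/2500 * w6 - 5869/10000 * w7 + 13/80 * w8) ^ 2 +
      225667/10000 * (1 * w6 + 223/5000 * w7 - 1063/1250 * w8) ^ 2 +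
      11751/10000 * (1 * w7 + 5783/5000 * w8) ^ 2 +
      8341/5000 * (1 * w8) ^ 2 +
      4246057288332697/20000000000000000000 * (1 * w0 - 1 * w1) ^ 2 +
      1826935385319057/20000000000000000000 * (1 * w0 - 1 * w2) ^ 2 +
      260048496624367/4000000000000000000 * (1 * w0 + 1 * w3) ^ 2 +
      140669676273067/4000000000000000000 * (1 * w0 - 1 * w4) ^ 2 +
      571090946360887/4000000000000000000 * (1 * w0 - 1 * w5) ^ 2 +
      114364328032887/20000000000000000000 * (1 * w0 + 1 * w6) ^ 2 +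
      398883760925747/20000000000000000000 * (1 * w0 + 1 * w7) ^ 2 +
      22177442454081/2000000000000000000 * (1 * w0 + 1 * w8) ^ 2 +
      2488922444500679/100000000000000000000 * (1 * w1 - 1 * w2) ^ 2 +
      321726035000249/20000000000000000000 * (1 * w1 + 1 * w3) ^ 2 +
      242325576010851/20000000000000000000 * (1 * w1 + 1 * w4) ^ 2 +
      1085714934416689/20000000000000000000 * (1 * w1 - 1 * w5) ^ 2 +
      2096435446999311/100000000000000000000 * (1 * w1 - 1 * w6) ^ 2 +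
      3317220381134891/100000000000000000000 * (1 * w1 - 1 * w7) ^ 2 +
      711266452006807/10000000000000000000 * (1 * w1 + 1 * w8) ^ 2 +
      786505185559631/20000000000000000000 * (1 * w2 - 1 * w3) ^ 2 +
      1342376431761269/20000000000000000000 * (1 * w2 - 1 * w4) ^ 2 +
      52957962915991/20000000000000000000 * (1 * w2 + 1 * w5) ^ 2 +
      7047210705588009/100000000000000000000 * (1 * w2 + 1 * w6) ^ 2 +
      4421280039677971/100000000000000000000 * (1 * w2 - 1 * w7) ^ 2 +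
      902381331399967/10000000000000000000 * (1 * w2 + 1 * w8) ^ 2 +
      757029142889461/4000000000000000000 * (1 * w3 - 1 * w4) ^ 2 +
      235576223532521/4000000000000000000 * (1 * w3 - 1 * w5) ^ 2 +
      1444741352708521/20000000000000000000 * (1 * w3 + 1 * w6) ^ 2 +
      3105277569057901/20000000000000000000 * (1 * w3 + 1 * w7) ^ 2 +
      101946410699423/2000000000000000000 * (1 * w3 + 1 * w8) ^ 2 +
      84008140459379/4000000000000000000 * (1 * w4 - 1 * w5) ^ 2 +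
      1187470909683379/20000000000000000000 * (1 * w4 + 1 * w6) ^ 2 +
      174203839284001/20000000000000000000 * (1 * w4 - 1 * w7) ^ 2 +
      233244268130277/2000000000000000000 * (1 * w4 + 1 * w8) ^ 2 +
      936991653413281/20000000000000000000 * (1 * w5 - 1 * w6) ^ 2 +
      2018700332155461/20000000000000000000 * (1 * w5 - 1 * w7) ^ 2 +
      56076164044697/2000000000000000000 * (1 * w5 + 1 * w8) ^ 2 +
      95878856813971461/100000000000000000000 * (1 * w6 + 1 * w7) ^ 2 +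
      3435803096923303/10000000000000000000 * (1 * w6 + 1 * w8) ^ 2 +
      7862701446971357/10000000000000000000 * (1 * w7 - 1 * w8) ^ 2 +
      293774735003378721/10000000000000000000 * (1 * w0) ^ 2 +
      147901497742487643/5000000000000000000 * (1 * w1) ^ 2 +
      739641115182916183/25000000000000000000 * (1 * w2) ^ 2 +
      18379680453319829/625000000000000000 * (1 * w3) ^ 2 +
      295095106553003/10000000000000000 * (1 * w4) ^ 2 +
      293659952956637039/10000000000000000000 * (1 * w5) ^ 2 +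
      284411424971816713/10000000000000000000 * (1 * w6) ^ 2 +
      1401569678336110299/50000000000000000000 * (1 * w7) ^ 2 +
      139882042833027533/5000000000000000000 * (1 * w8) ^ 2 := by
    positivity
  rw [← key, h1, h2] at hpos
  linarith

/-- The weight of the new edge. -/
noncomputable def X : ℝ := 93934143380 / 229592003

theorem X_ge : 20 ≤ X := by
  unfold X
  norm_num

theorem sum_zero {ν w0 w1 w2 w3 w4 w5 w6 w7 w8 : ℝ} (hν : ν ≠ 0)
    (e0 : w0 - w3 = ν * w0)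
    (e1 : 2 * w1 - w4 - w6 = ν * w1)
    (e2 : 2 * w2 - w5 - w7 = ν * w2)
    (e3 : 3 * w3 - w0 - w4 - w5 = ν * w3)
    (e4 : 3 * w4 - w1 - w3 - w6 = ν * w4)
    (e5 : 3 * w5 - w2 - w3 - w7 = ν * w5)
    (e6 : 3 * w6 - w1 - w4 - w7 + X * (w6 - w8) = ν * w6)
    (e7 : 3 * w7 - w2 - w5 - w6 = ν * w7)
    (e8 : X * (w8 - w6) = ν * w8) :
    w0 + w1 + w2 + w3 + w4 + w5 + w6 + w7 + w8 = 0 := by
  have : ν * (w0 + w1 + w2 + w3 + w4 + w5 + w6 + w7 + w8) = 0 := by
    linear_combination -(e0 + e1 + e2 + e3 + e4 + e5 + e6 + e7 + e8)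
  exact (mul_eq_zero.1 this).resolve_left hν

theorem orth {ν w0 w1 w2 w3 w4 w5 w6 w7 w8 : ℝ} (hν : ν ≠ 14 / 23)
    (e0 : w0 - w3 = ν * w0)
    (e1 : 2 * w1 - w4 - w6 = ν * w1)
    (e2 : 2 * w2 - w5 - w7 = ν * w2)
    (e3 : 3 * w3 - w0 - w4 - w5 = ν * w3)
    (e4 : 3 * w4 - w1 - w3 - w6 = ν * w4)
    (e5 : 3 * w5 - w2 - w3 - w7 = ν * w5)
    (e6 : 3 * w6 - w1 - w4 - w7 + X * (w6 - w8) = ν * w6)
    (e7 : 3 * w7 - w2 - w5 - w6 = ν * w7)
    (e8 : X * (w8 - w6) = ν * w8) :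
    -17171956285 * w0 + 6876105921 * w1 + 309025401 * w2 - 6719461155 * w3 + 2867156655 * w4 - 1763477045 * w5 + 6699599409 * w6 + 2193425429 * w7 + 6709581670 * w8 = 0 := by
  have : (14 / 23 - ν) * (-17171956285 * w0 + 6876105921 * w1 + 309025401 * w2 - 6719461155 * w3 + 2867156655 * w4 - 1763477045 * w5 + 6699599409 * w6 + 2193425429 * w7 + 6709581670 * w8) = 0 := by
    unfold X at e6 e8
    linear_combination (-17171956285) * e0 + (6876105921) * e1 + (309025401) * e2 + (-6719461155) * e3 + (2867156655) * e4 + (-1763477045) * e5 + (6699599409) * e6 + (2193425429) * e7 + (6709581670) * e8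
  exact (mul_eq_zero.1 this).resolve_left (sub_ne_zero.2 hν.symm)

theorem large {ν w0 w1 w2 w3 w4 w5 w6 w7 w8 : ℝ} (h1 : w0 + w1 + w2 + w3 + w4 + w5 + w6 + w7 + w8 = 0)
    (h2 : -17171956285 * w0 + 6876105921 * w1 + 309025401 * w2 - 6719461155 * w3 + 2867156655 * w4 - 1763477045 * w5 + 6699599409 * w6 + 2193425429 * w7 + 6709581670 * w8 = 0)
    (e0 : w0 - w3 = ν * w0)
    (e1 : 2 * w1 - w4 - w6 = ν * w1)
    (e2 : 2 * w2 - w5 - w7 = ν * w2)
    (e3 : 3 * w3 - w0 - w4 - w5 = ν * w3)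
    (e4 : 3 * w4 - w1 - w3 - w6 = ν * w4)
    (e5 : 3 * w5 - w2 - w3 - w7 = ν * w5)
    (e6 : 3 * w6 - w1 - w4 - w7 + X * (w6 - w8) = ν * w6)
    (e7 : 3 * w7 - w2 - w5 - w6 = ν * w7)
    (e8 : X * (w8 - w6) = ν * w8) :
    62 / 100 * (w0 ^ 2 + w1 ^ 2 + w2 ^ 2 + w3 ^ 2 + w4 ^ 2 + w5 ^ 2 + w6 ^ 2 + w7 ^ 2 + w8 ^ 2) ≤
      ν * (w0 ^ 2 + w1 ^ 2 + w2 ^ 2 + w3 ^ 2 + w4 ^ 2 + w5 ^ 2 + w6 ^ 2 + w7 ^ 2 + w8 ^ 2) := by
  refine (certificate w0 w1 w2 w3 w4 w5 w6 w7 w8 h1 h2).trans ?_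
  have h3 : 20 * (w6 - w8) ^ 2 ≤ X * (w6 - w8) ^ 2 :=
    mul_le_mul_of_nonneg_right X_ge (sq_nonneg _)
  have h4 : ν * (w0 ^ 2 + w1 ^ 2 + w2 ^ 2 + w3 ^ 2 + w4 ^ 2 + w5 ^ 2 + w6 ^ 2 + w7 ^ 2 + w8 ^ 2) =
      (w0 - w3) ^ 2 + (w1 - w4) ^ 2 + (w1 - w6) ^ 2 + (w2 - w5) ^ 2 + (w2 - w7) ^ 2 + (w3 - w4) ^ 2 + (w3 - w5) ^ 2 + (w4 - w6) ^ 2 + (w5 - w7) ^ 2 + (w6 - w7) ^ 2 +
        X * (w6 - w8) ^ 2 := by
    linear_combination  - w0 * e0 - w1 * e1 - w2 * e2 - w3 * e3 - w4 * e4 - w5 * e5 - w6 * e6 - w7 * e7 - w8 * e8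
  rw [h4]
  linarith

theorem attach_rows (y : Option (Fin 8) → ℝ) :
    (∀ i, (lap (attach G0 6 X) *ᵥ y) (some i) = (lap (weights G0) *ᵥ fun j => y (some j)) i +
      if i = 6 then X * (y (some 6) - y none) else 0) ∧
    (lap (attach G0 6 X) *ᵥ y) none = X * (y none - y (some 6)) := by
  constructor
  · intro i
    rw [lap_mulVec, lap_mulVec, Fintype.sum_option, add_comm]
    congr 1
    by_cases h : i = 6
    · subst h
      simp [attach]
    · simp [attach, h]
  · rw [lap_mulVec, Fintype.sum_option]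
    simp [attach]

/-- The equations for an eigenvector of the Laplacian of the graph with the new vertex. -/
theorem equations {ν : ℝ} {y : Option (Fin 8) → ℝ} (h : lap (attach G0 6 X) *ᵥ y = ν • y) :
    y (some 0) - y (some 3) = ν * y (some 0) ∧
    2 * y (some 1) - y (some 4) - y (some 6) = ν * y (some 1) ∧
    2 * y (some 2) - y (some 5) - y (some 7) = ν * y (some 2) ∧
    3 * y (some 3) - y (some 0) - y (some 4) - y (some 5) = ν * y (some 3) ∧
    3 * y (some 4) - y (some 1) - y (some 3) - y (some 6) = ν * y (some 4) ∧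
    3 * y (some 5) - y (some 2) - y (some 3) - y (some 7) = ν * y (some 5) ∧
    3 * y (some 6) - y (some 1) - y (some 4) - y (some 7) + X * (y (some 6) - y none) =
      ν * y (some 6) ∧
    3 * y (some 7) - y (some 2) - y (some 5) - y (some 6) = ν * y (some 7) ∧
    X * (y none - y (some 6)) = ν * y none := by
  obtain ⟨ha, hn⟩ := attach_rows y
  obtain ⟨r0, r1, r2, r3, r4, r5, r6, r7⟩ := rows fun j => y (some j)
  rw [h, Pi.smul_apply, smul_eq_mul] at hn
  have hi : ∀ i, ν * y (some i) = (lap (weights G0) *ᵥ fun j => y (some j)) i +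
      if i = 6 then X * (y (some 6) - y none) else 0 := by
    intro i
    rw [← ha i, h]
    rfl
  have d : ∀ j : Fin 8, j ≠ 6 → (if j = 6 then X * (y (some 6) - y none) else 0) = 0 :=
    fun j hj => if_neg hj
  have i0 := hi 0
  have i1 := hi 1
  have i2 := hi 2
  have i3 := hi 3
  have i4 := hi 4
  have i5 := hi 5
  have i6 := hi 6
  have i7 := hi 7
  rw [d _ (by decide), r0, add_zero] at i0
  rw [d _ (by decide), r1, add_zero] at i1
  rw [d _ (by decide), r2, add_zero] at i2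
  rw [d _ (by decide), r3, add_zero] at i3
  rw [d _ (by decide), r4, add_zero] at i4
  rw [d _ (by decide), r5, add_zero] at i5
  rw [if_pos rfl, r6] at i6
  rw [d _ (by decide), r7, add_zero] at i7
  exact ⟨i0.symm, i1.symm, i2.symm, i3.symm, i4.symm, i5.symm, i6.symm, i7.symm, hn.symm⟩

/-- The eigenvector of the graph with the new vertex. -/
noncomputable def P : Option (Fin 8) → ℝ
  | some i => ![-17171956285, 6876105921, 309025401, -6719461155, 2867156655, -1763477045, 6699599409, 2193425429] i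
  | none => 6709581670

theorem P_eig : lap (attach G0 6 X) *ᵥ P = (14 / 23 : ℝ) • P := by
  obtain ⟨ha, hn⟩ := attach_rows P
  obtain ⟨r0, r1, r2, r3, r4, r5, r6, r7⟩ := rows fun j => P (some j)
  have d : ∀ j : Fin 8, j ≠ 6 → (if j = 6 then X * (P (some 6) - P none) else 0) = 0 :=
    fun j hj => if_neg hj
  have p0 : P (some 0) = -17171956285 := rfl
  have p1 : P (some 1) = 6876105921 := rfl
  have p2 : P (some 2) = 309025401 := rfl
  have p3 : P (some 3) = -6719461155 := rfl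
  have p4 : P (some 4) = 2867156655 := rfl
  have p5 : P (some 5) = -1763477045 := rfl
  have p6 : P (some 6) = 6699599409 := rfl
  have p7 : P (some 7) = 2193425429 := rfl
  have pn : P none = 6709581670 := rfl
  funext i
  rw [Pi.smul_apply, smul_eq_mul]
  match i with
  | none =>
    rw [hn, pn, p6]
    unfold X
    norm_num
  | some i =>
    rw [ha]
    fin_cases i
    · refine (congrArg₂ (· + ·) r0 (d 0 (by decide))).trans ?_
      show P (some 0) - P (some 3) + 0 = 14 / 23 * P (some 0)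
      rw [p0, p3]
      norm_num
    · refine (congrArg₂ (· + ·) r1 (d 1 (by decide))).trans ?_
      show 2 * P (some 1) - P (some 4) - P (some 6) + 0 = 14 / 23 * P (some 1)
      rw [p1, p4, p6]
      norm_num
    · refine (congrArg₂ (· + ·) r2 (d 2 (by decide))).trans ?_
      show 2 * P (some 2) - P (some 5) - P (some 7) + 0 = 14 / 23 * P (some 2)
      rw [p2, p5, p7]
      norm_num
    · refine (congrArg₂ (· + ·) r3 (d 3 (by decide))).trans ?_
      show 3 * P (some 3) - P (some 0) - P (some 4) - P (some 5) + 0 = 14 / 23 * P (some 3)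
      rw [p3, p0, p4, p5]
      norm_num
    · refine (congrArg₂ (· + ·) r4 (d 4 (by decide))).trans ?_
      show 3 * P (some 4) - P (some 1) - P (some 3) - P (some 6) + 0 = 14 / 23 * P (some 4)
      rw [p4, p1, p3, p6]
      norm_num
    · refine (congrArg₂ (· + ·) r5 (d 5 (by decide))).trans ?_
      show 3 * P (some 5) - P (some 2) - P (some 3) - P (some 7) + 0 = 14 / 23 * P (some 5)
      rw [p5, p2, p3, p7]
      norm_num
    · refine (congrArg₂ (· + ·) r6 (if_pos rfl)).trans ?_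
      show 3 * P (some 6) - P (some 1) - P (some 4) - P (some 7) + X * (P (some 6) - P none) =
        14 / 23 * P (some 6)
      rw [p6, p1, p4, p7, pn]
      unfold X
      norm_num
    · refine (congrArg₂ (· + ·) r7 (d 7 (by decide))).trans ?_
      show 3 * P (some 7) - P (some 2) - P (some 5) - P (some 6) + 0 = 14 / 23 * P (some 7)
      rw [p7, p2, p5, p6]
      norm_num

theorem sumsq_eq_zero {y : Option (Fin 8) → ℝ} (h : y (some 0) ^ 2 + y (some 1) ^ 2 + y (some 2) ^ 2 +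
    y (some 3) ^ 2 + y (some 4) ^ 2 + y (some 5) ^ 2 + y (some 6) ^ 2 + y (some 7) ^ 2 +
    y none ^ 2 ≤ 0) : y = 0 := by
  have z : ∀ t : ℝ, t ^ 2 ≤ 0 → t = 0 := fun t ht =>
    pow_eq_zero_iff (two_ne_zero) |>.1 (le_antisymm ht (sq_nonneg t))
  have h0 := sq_nonneg (y (some 0))
  have h1 := sq_nonneg (y (some 1))
  have h2 := sq_nonneg (y (some 2))
  have h3 := sq_nonneg (y (some 3))
  have h4 := sq_nonneg (y (some 4))
  have h5 := sq_nonneg (y (some 5))
  have h6 := sq_nonneg (y (some 6))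
  have h7 := sq_nonneg (y (some 7))
  have h8 := sq_nonneg (y none)
  funext i
  match i with
  | none => exact z _ (by linarith)
  | some i =>
    fin_cases i
    · exact z (y (some 0)) (by linarith)
    · exact z (y (some 1)) (by linarith)
    · exact z (y (some 2)) (by linarith)
    · exact z (y (some 3)) (by linarith)
    · exact z (y (some 4)) (by linarith)
    · exact z (y (some 5)) (by linarith)
    · exact z (y (some 6)) (by linarith)
    · exact z (y (some 7)) (by linarith)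

theorem pendant_fiedler : ∃ Ψ : Option (Fin 8) → ℝ,
    IsFiedlerVector (lap (attach G0 6 X)) Ψ ∧ ¬ IsExtremum Ψ none := by
  have hker : ∀ y : Option (Fin 8) → ℝ, lap (attach G0 6 X) *ᵥ y = 0 →
      ∃ c : ℝ, y = fun _ => c := by
    intro y hy
    have hy' : lap (attach G0 6 X) *ᵥ y = (0 : ℝ) • y := by rw [hy, zero_smul]
    obtain ⟨e0, e1, e2, e3, e4, e5, e6, e7, e8⟩ := equations hy'
    have hX : 0 < X := by linarith [X_ge]
    have h8 : y none = y (some 6) := by
      have : X * (y none - y (some 6)) = 0 := by rw [e8, zero_mul]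
      have := (mul_eq_zero.1 this).resolve_left hX.ne'
      linarith
    rw [h8, sub_self, mul_zero, add_zero] at e6
    obtain ⟨h1, h2, h7, h4, h5, h3, h0, -⟩ := small (by norm_num) e0 e1 e2 e3 e4 e5 e6 e7
    refine ⟨y (some 6), funext fun i => ?_⟩
    match i with
    | none => exact h8
    | some i =>
      fin_cases i
      · exact h0.trans (by ring)
      · exact h1
      · exact h2
      · exact h3.trans (by ring)
      · exact h4.trans (by ring)
      · exact h5.trans (by ring)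
      · rfl
      · exact h7
  have hsec : ∀ (ν : ℝ) (y : Option (Fin 8) → ℝ), y ≠ 0 → lap (attach G0 6 X) *ᵥ y = ν • y →
      ν = 0 ∨ 14 / 23 ≤ ν := by
    intro ν y hy0 hy
    by_contra hcon
    push Not at hcon
    obtain ⟨hν0, hν⟩ := hcon
    obtain ⟨e0, e1, e2, e3, e4, e5, e6, e7, e8⟩ := equations hy
    have h := large (sum_zero hν0 e0 e1 e2 e3 e4 e5 e6 e7 e8)
      (orth hν.ne e0 e1 e2 e3 e4 e5 e6 e7 e8) e0 e1 e2 e3 e4 e5 e6 e7 e8
    refine hy0 (sumsq_eq_zero ?_)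
    nlinarith [h]
  have hsimple : ∀ y : Option (Fin 8) → ℝ, lap (attach G0 6 X) *ᵥ y = (14 / 23 : ℝ) • y →
      ∃ c : ℝ, y = c • P := by
    intro y hy
    set c : ℝ := (-17171956285 * y (some 0) + 6876105921 * y (some 1) + 309025401 * y (some 2) - 6719461155 * y (some 3) + 2867156655 * y (some 4) - 1763477045 * y (some 5) + 6699599409 * y (some 6) + 2193425429 * y (some 7) + 6709581670 * y none) / 493448242315389097564 with hc
    refine ⟨c, ?_⟩
    have h1 : lap (attach G0 6 X) *ᵥ (y - c • P) = (14 / 23 : ℝ) • (y - c • P) := by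
      rw [mulVec_sub, mulVec_smul, hy, P_eig, smul_sub, smul_comm]
    obtain ⟨e0, e1, e2, e3, e4, e5, e6, e7, e8⟩ := equations h1
    have hS := sum_zero (by norm_num) e0 e1 e2 e3 e4 e5 e6 e7 e8
    have q0 : (y - c • P) (some 0) = y (some 0) - c * (-17171956285) := rfl
    have q1 : (y - c • P) (some 1) = y (some 1) - c * (6876105921) := rfl
    have q2 : (y - c • P) (some 2) = y (some 2) - c * (309025401) := rfl
    have q3 : (y - c • P) (some 3) = y (some 3) - c * (-6719461155) := rfl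
    have q4 : (y - c • P) (some 4) = y (some 4) - c * (2867156655) := rfl
    have q5 : (y - c • P) (some 5) = y (some 5) - c * (-1763477045) := rfl
    have q6 : (y - c • P) (some 6) = y (some 6) - c * (6699599409) := rfl
    have q7 : (y - c • P) (some 7) = y (some 7) - c * (2193425429) := rfl
    have q8 : (y - c • P) (none) = y (none) - c * (6709581670) := rfl
    have hO : -17171956285 * (y - c • P) (some 0) + 6876105921 * (y - c • P) (some 1) + 309025401 * (y - c • P) (some 2) - 6719461155 * (y - c • P) (some 3) + 2867156655 * (y - c • P) (some 4) - 1763477045 * (y - c • P) (some 5) + 6699599409 * (y - c • P) (some 6) + 2193425429 * (y - c • P) (some 7) + 6709581670 * (y - c • P) none = 0 := by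
      rw [q0, q1, q2, q3, q4, q5, q6, q7, q8, hc]
      ring
    clear q0 q1 q2 q3 q4 q5 q6 q7 q8
    have h := large hS hO e0 e1 e2 e3 e4 e5 e6 e7 e8
    refine sub_eq_zero.1 ?_
    clear hO hS e0 e1 e2 e3 e4 e5 e6 e7 e8 h1
    generalize y - c • P = z at h ⊢
    exact sumsq_eq_zero (by linarith)
  obtain ⟨c, hc, hΨ⟩ := normalise (Φ := P) (fun h => by
    have := congrFun h none
    simp [P] at this) hker (by norm_num : (0 : ℝ) < 14 / 23) P_eig hsec hsimple
  refine ⟨c • P, hΨ, ?_⟩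
  have p0 : (c • P) (some 0) = c * -17171956285 := rfl
  have p1 : (c • P) (some 1) = c * 6876105921 := rfl
  have pn : (c • P) none = c * 6709581670 := rfl
  rintro (h | h)
  · have := h (some 1)
    rw [p1, pn] at this
    linarith
  · have := h (some 0)
    rw [p0, pn] at this
    linarith

/-- **There are a connected graph `G`, an extremum `v` of its Fiedler vector and a weight `x > 0` such
that the new vertex of the graph obtained by attaching a pendant vertex to `v` by an edge of weight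
`x` is not an extremum of the Fiedler vector.** -/
theorem result : ∃ (n : ℕ) (G : SimpleGraph (Fin n)) (Φ : Fin n → ℝ) (v : Fin n) (x : ℝ)
    (Ψ : Option (Fin n) → ℝ), 2 ≤ n ∧ G.Connected ∧ IsFiedlerVector (lap (weights G)) Φ ∧
      IsExtremum Φ v ∧ 0 < x ∧ IsFiedlerVector (lap (attach G v x)) Ψ ∧ ¬ IsExtremum Ψ none := by
  obtain ⟨Φ, hΦ, hmax⟩ := G0_fiedler
  obtain ⟨Ψ, hΨ, hno⟩ := pendant_fiedler
  exact ⟨8, G0, Φ, 6, X, Ψ, by norm_num, G0_connected, hΦ, Or.inl hmax, by linarith [X_ge], hΨ, hno⟩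

end Pool.Agent.Results.MP_a456c8_co.PendantNotExtremal
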